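import Pool.Agent.N984.DI.Stm

/-!
# det (A^2 + |AB|^p) >= det (A^2 + A^p B^p): the norm inequality from the operator inequality
-/

set_option autoImplicit false

namespace Pool.Agent.N555.DI

open Matrix Finset
open scoped ComplexOrder
open Pool.Agent.N984.DI

variable {ι : Type} [Fintype ι] [DecidableEq ι]

lemma dg_mul (U : Matrix ι ι ℂ) (hU : U ∈ Matrix.unitaryGroup ι ℂ) (x y : ι → ℝ) :
    dg U x * dg U y = dg U (fun i => x i * y i) := by
  have h1 : Uᴴ * U = 1 := by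
    have := (Matrix.mem_unitaryGroup_iff' (A := U)).1 hU
    simpa [star_eq_conjTranspose] using this
  unfold dg
  calc U * diagonal (fun i => (x i : ℂ)) * Uᴴ * (U * diagonal (fun i => (y i : ℂ)) * Uᴴ)
      = U * diagonal (fun i => (x i : ℂ)) * (Uᴴ * U) * diagonal (fun i => (y i : ℂ)) * Uᴴ := by
        simp only [Matrix.mul_assoc]
    _ = U * (diagonal (fun i => (x i : ℂ)) * diagonal (fun i => (y i : ℂ))) * Uᴴ := by
        rw [h1, Matrix.mul_one]; simp only [Matrix.mul_assoc]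
    _ = _ := by
        rw [Matrix.diagonal_mul_diagonal]
        simp

lemma dg_one (U : Matrix ι ι ℂ) (hU : U ∈ Matrix.unitaryGroup ι ℂ) :
    dg U (fun _ => 1) = 1 := by
  have h1 : U * Uᴴ = 1 := by
    have := (Matrix.mem_unitaryGroup_iff (A := U)).1 hU
    simpa [star_eq_conjTranspose] using this
  unfold dg
  simp [h1]

lemma dg_herm (U : Matrix ι ι ℂ) (x : ι → ℝ) : (dg U x)ᴴ = dg U x := by
  unfold dg
  rw [conjTranspose_mul, conjTranspose_mul, conjTranspose_conjTranspose, diagonal_conjTranspose]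
  have : star (fun i => (x i : ℂ)) = fun i => (x i : ℂ) := by
    funext i; simp
  rw [this, Matrix.mul_assoc]

lemma dg_smul (U : Matrix ι ι ℂ) (x : ι → ℝ) (t : ℝ) :
    (t : ℂ) • dg U x = dg U (fun i => t * x i) := by
  unfold dg
  have : diagonal (fun i => ((t * x i : ℝ) : ℂ)) = (t : ℂ) • diagonal (fun i => (x i : ℂ)) := by
    ext i j
    by_cases h : i = j
    · subst h; simp
    · simp [h]
  rw [this]
  simp

lemma spd {X : Matrix ι ι ℂ} (hX : X.IsHermitian) :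
    ∃ U ∈ Matrix.unitaryGroup ι ℂ, X = dg U hX.eigenvalues := by
  refine ⟨hX.eigenvectorUnitary, hX.eigenvectorUnitary.2, ?_⟩
  have h := hX.spectral_theorem
  rw [Unitary.conjStarAlgAut_apply] at h
  exact h

lemma mpow_smul (h0 : CFD) {X : Matrix ι ι ℂ} (hX : X.PosSemidef) {t : ℝ} (ht : 0 < t) (q : ℝ) :
    mpow ((t : ℂ) • X) q = ((t ^ q : ℝ) : ℂ) • mpow X q := by
  obtain ⟨U, hU, hx⟩ := spd hX.isHermitian
  have hnn : ∀ i, 0 ≤ hX.isHermitian.eigenvalues i := hX.eigenvalues_nonneg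
  generalize hX.isHermitian.eigenvalues = x at hx hnn
  unfold mpow
  rw [hx, dg_smul, h0 ι U hU, h0 ι U hU, dg_smul]
  congr 1
  funext i
  exact Real.mul_rpow ht.le (hnn i)

lemma conj_psd {M H : Matrix ι ι ℂ} (hM : M.PosSemidef) (hH : Hᴴ = H) :
    (H * M * H).PosSemidef := by
  have := hM.mul_mul_conjTranspose_same H
  rwa [hH] at this

lemma mpow_conj (h0 : CFD) {A : Matrix ι ι ℂ} (hA : A.PosDef) (p : ℝ) :
    (mpow A (p / 2 - 1))ᴴ = mpow A (p / 2 - 1) ∧
    mpow A (p / 2 - 1) * mpow A (2 - p) * mpow A (p / 2 - 1) = 1 := by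
  obtain ⟨U, hU, hx⟩ := spd hA.isHermitian
  have hpos : ∀ i, 0 < hA.isHermitian.eigenvalues i := hA.eigenvalues_pos
  generalize hA.isHermitian.eigenvalues = x at hx hpos
  unfold mpow
  rw [hx, h0 ι U hU, h0 ι U hU, dg_mul U hU, dg_mul U hU]
  refine ⟨dg_herm _ _, ?_⟩
  rw [← dg_one U hU]
  congr 1
  funext i
  rw [← Real.rpow_add (hpos i), ← Real.rpow_add (hpos i)]
  have : p / 2 - 1 + (2 - p) + (p / 2 - 1) = 0 := by ring
  rw [this, Real.rpow_zero]

theorem t_NRM (h0 : CFD) (h1 : SPD) (h : OP) : NRM := by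
  intro ι _ _ A B hA hB p hp hp2 c hc hY
  have hAh : Aᴴ = A := hA.isHermitian
  have hBh : Bᴴ = B := hB.isHermitian
  have hdet : IsUnit A.det := (Matrix.isUnit_iff_isUnit_det A).1 hA.isUnit
  have hAi : A * A⁻¹ = 1 := Matrix.mul_nonsing_inv A hdet
  have hiA : A⁻¹ * A = 1 := Matrix.nonsing_inv_mul A hdet
  -- `B (A A) B` is positive semidefinite
  have hAA : (A * A).PosSemidef := by
    have := Matrix.posSemidef_conjTranspose_mul_self A
    rwa [hAh] at this
  have hBAB : (B * (A * A) * B).PosSemidef := conj_psd hAA hBh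
  set s : ℝ := c ^ (-(1 / p)) with hs
  have hs0 : 0 < s := Real.rpow_pos_of_pos hc _
  have hsp : s ^ p = c⁻¹ := by
    rw [hs, ← Real.rpow_mul hc.le]
    have : -(1 / p) * p = -1 := by field_simp
    rw [this, Real.rpow_neg_one]
  have hsp2 : (s * s) ^ (p / 2) = c⁻¹ := by
    rw [← hsp, Real.mul_rpow hs0.le hs0.le, ← Real.rpow_add hs0]
    congr 1
    ring
  have hci : 0 < c⁻¹ := inv_pos.mpr hc
  have hB' : ((s : ℂ) • B).PosDef := by
    have : (0 : ℂ) < (s : ℂ) := by exact_mod_cast hs0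
    exact hB.smul this
  have e1 : ((s : ℂ) • B) * (A * A) * ((s : ℂ) • B) = ((s * s : ℝ) : ℂ) • (B * (A * A) * B) := by
    rw [Matrix.smul_mul, Matrix.smul_mul, Matrix.mul_smul, smul_smul]
    push_cast
    rfl
  have e2 : mpow (((s : ℂ) • B) * (A * A) * ((s : ℂ) • B)) (p / 2)
      = ((c⁻¹ : ℝ) : ℂ) • mpow (B * (A * A) * B) (p / 2) := by
    rw [e1, mpow_smul h0 hBAB (mul_pos hs0 hs0), hsp2]
  have e3 : mpow ((s : ℂ) • B) p = ((c⁻¹ : ℝ) : ℂ) • mpow B p := by
    rw [mpow_smul h0 hB.posSemidef hs0, hsp]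
  -- conjugate the hypothesis with `A`
  have k1 : (A * ((c : ℂ) • (1 : Matrix ι ι ℂ) - YY A B p) * A).PosSemidef := conj_psd hY hAh
  have k2 : A * ((c : ℂ) • (1 : Matrix ι ι ℂ) - YY A B p) * A
      = (c : ℂ) • (A * A) - mpow (B * (A * A) * B) (p / 2) := by
    unfold YY
    rw [Matrix.mul_sub, Matrix.sub_mul]
    congr 1
    · simp
    · generalize mpow (B * (A * A) * B) (p / 2) = M
      calc A * (A⁻¹ * M * A⁻¹) * A = (A * A⁻¹) * M * (A⁻¹ * A) := by
            simp only [Matrix.mul_assoc]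
        _ = M := by rw [hAi, hiA, Matrix.one_mul, Matrix.mul_one]
  rw [k2] at k1
  have cc : ((c⁻¹ : ℝ) : ℂ) * (c : ℂ) = 1 := by
    rw [← Complex.ofReal_mul, inv_mul_cancel₀ hc.ne', Complex.ofReal_one]
  have cc' : (c : ℂ) * ((c⁻¹ : ℝ) : ℂ) = 1 := by
    rw [mul_comm]; exact cc
  have k3 : (A * A - mpow (((s : ℂ) • B) * (A * A) * ((s : ℂ) • B)) (p / 2)).PosSemidef := by
    have hh : (0 : ℂ) ≤ ((c⁻¹ : ℝ) : ℂ) := by exact_mod_cast hci.le
    have := k1.smul hh
    rw [smul_sub, smul_smul, cc, one_smul, ← e2] at this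
    exact this
  have k4 := h ι A ((s : ℂ) • B) hA hB' p hp.le hp2 k3
  rw [e3] at k4
  have k5 : ((c : ℂ) • mpow A (2 - p) - mpow B p).PosSemidef := by
    have hh : (0 : ℂ) ≤ (c : ℂ) := by exact_mod_cast hc.le
    have := k4.smul hh
    rw [smul_sub, smul_smul, cc', one_smul] at this
    exact this
  obtain ⟨m1, m2⟩ := mpow_conj h0 hA p
  have k6 := conj_psd k5 m1
  have k7 : mpow A (p / 2 - 1) * ((c : ℂ) • mpow A (2 - p) - mpow B p) * mpow A (p / 2 - 1)
      = (c : ℂ) • (1 : Matrix ι ι ℂ) - XX A B p := by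
    unfold XX
    rw [Matrix.mul_sub, Matrix.sub_mul, Matrix.mul_smul, Matrix.smul_mul, m2]
  rw [k7] at k6
  exact k6

end Pool.Agent.N555.DI
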