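import Pool.Agent.N555.DI.NRM

/-!
# Sorted spectral decomposition
-/

set_option autoImplicit false

namespace Pool.Agent.N555.DI

open Matrix Finset
open scoped ComplexOrder
open Pool.Agent.N984.DI

theorem t_SPD : SPD := by
  intro n X hX
  obtain ⟨U, hU, hx⟩ := spd hX
  generalize hX.eigenvalues = e at hx
  have h1 : Uᴴ * U = 1 := by
    have := (Matrix.mem_unitaryGroup_iff' (A := U)).1 hU
    simpa [star_eq_conjTranspose] using this
  let σ : Equiv.Perm (Fin n) := Tuple.sort (fun i => - e i)
  have hm : Monotone ((fun i => - e i) ∘ σ) := Tuple.monotone_sort _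
  refine ⟨U.submatrix id σ, ?_, fun i => e (σ i), ?_, ?_⟩
  · rw [Matrix.mem_unitaryGroup_iff', star_eq_conjTranspose]
    ext i j
    have h2 : (Uᴴ * U) (σ i) (σ j) = (1 : Matrix (Fin n) (Fin n) ℂ) (σ i) (σ j) := by rw [h1]
    have h3 : (1 : Matrix (Fin n) (Fin n) ℂ) (σ i) (σ j) = (1 : Matrix (Fin n) (Fin n) ℂ) i j := by
      simp [Matrix.one_apply]
    rw [h3] at h2
    rw [← h2, Matrix.mul_apply, Matrix.mul_apply]
    rfl
  · intro i j hij
    have := hm hij
    simp only [Function.comp_apply, neg_le_neg_iff] at this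
    exact this
  · rw [hx]
    unfold dg
    ext i k
    rw [Matrix.mul_apply, Matrix.mul_apply]
    simp only [Matrix.mul_diagonal, conjTranspose_apply, submatrix_apply, id]
    exact (Equiv.sum_comp σ (fun j => U i j * (e j : ℂ) * star (U k j))).symm

end Pool.Agent.N555.DI
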